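import Pool.Agent.Helper22.WC.Defs
import Pool.Agent.Helper60.AD.Meas

/-!
# WC, block D1a: the largest error is finite, locally bounded and measurable
-/

open MeasureTheory Real Set Filter Topology

set_option autoImplicit false

namespace Pool.Agent.Helper60.WC

open Pool.Agent.Helper22.AE
open Pool.Agent.Helper22.AC (cntc)
open Pool.Agent.Helper22.WC

/-- the crude bound of the count -/
noncomputable def BB (H : ℝ → ℝ) (R : ℝ) : ℝ := (|R| * (|H 0| + |H π|) + 3) * (|R| * (|H (π / 2)| + |H (-(π / 2))|) + 3)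

theorem cntc_nonneg (H : ℝ → ℝ) (c : ℝ × ℝ) (R : ℝ) : 0 ≤ cntc H c R := by
  unfold cntc
  exact Nat.cast_nonneg _

private theorem card60 (x y : ℝ) {z : ℝ} (hz : x - y ≤ z) (hz0 : 0 ≤ z) : (((Finset.Icc ⌊y⌋ ⌈x⌉).card : ℕ) : ℝ) ≤ z + 3 := by
  rw [Int.card_Icc]
  have h1 : (⌈x⌉ : ℝ) < x + 1 := Int.ceil_lt_add_one x
  have h2 : y < ⌊y⌋ + 1 := Int.lt_floor_add_one y
  rcases le_total 0 (⌈x⌉ + 1 - ⌊y⌋) with h | h
  · have h3 : ((((⌈x⌉ + 1 - ⌊y⌋).toNat : ℕ) : ℤ) : ℝ) = ((⌈x⌉ + 1 - ⌊y⌋ : ℤ) : ℝ) := by rw [Int.toNat_of_nonneg h]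
    have h4 : (((⌈x⌉ + 1 - ⌊y⌋).toNat : ℕ) : ℝ) = (⌈x⌉ : ℝ) + 1 - ⌊y⌋ := by
      have h5 := h3
      push_cast at h5
      exact h5
    rw [h4]
    linarith
  · rw [Int.toNat_of_nonpos h]
    push_cast
    linarith

theorem cntc_le (H : ℝ → ℝ) (c : ℝ × ℝ) (R : ℝ) : cntc H c R ≤ BB H R := by
  unfold cntc BB
  have h0 : Nat.card {k : ℤ × ℤ // ∀ θ : ℝ, ((k.1 : ℝ) - c.1) * cos θ + ((k.2 : ℝ) - c.2) * sin θ ≤ R * H θ} =
      {k : ℤ × ℤ | ∀ θ : ℝ, ((k.1 : ℝ) - c.1) * cos θ + ((k.2 : ℝ) - c.2) * sin θ ≤ R * H θ}.ncard := rfl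
  have hsub : {k : ℤ × ℤ | ∀ θ : ℝ, ((k.1 : ℝ) - c.1) * cos θ + ((k.2 : ℝ) - c.2) * sin θ ≤ R * H θ} ⊆
      ((Finset.Icc ⌊c.1 - R * H π⌋ ⌈c.1 + R * H 0⌉ ×ˢ Finset.Icc ⌊c.2 - R * H (-(π / 2))⌋ ⌈c.2 + R * H (π / 2)⌉ : Finset (ℤ × ℤ)) :
        Set (ℤ × ℤ)) := by
    intro k hk
    have a0 := hk 0
    have a1 := hk (π / 2)
    have a2 := hk π
    have a3 := hk (-(π / 2))
    simp only [Real.cos_zero, Real.sin_zero, Real.cos_pi_div_two, Real.sin_pi_div_two, Real.cos_pi, Real.sin_pi,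
      Real.cos_neg, Real.sin_neg, mul_one, mul_zero, add_zero, zero_add, mul_neg] at a0 a1 a2 a3
    simp only [Finset.coe_product, Finset.coe_Icc, mem_prod, mem_Icc]
    refine ⟨⟨?_, ?_⟩, ⟨?_, ?_⟩⟩
    · have : (⌊c.1 - R * H π⌋ : ℝ) ≤ k.1 := (Int.floor_le _).trans (by linarith)
      exact_mod_cast this
    · have : (k.1 : ℝ) ≤ ⌈c.1 + R * H 0⌉ := le_trans (by linarith) (Int.le_ceil _)
      exact_mod_cast this
    · have : (⌊c.2 - R * H (-(π / 2))⌋ : ℝ) ≤ k.2 := (Int.floor_le _).trans (by linarith)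
      exact_mod_cast this
    · have : (k.2 : ℝ) ≤ ⌈c.2 + R * H (π / 2)⌉ := le_trans (by linarith) (Int.le_ceil _)
      exact_mod_cast this
  have h1 := Set.ncard_le_ncard hsub (Finset.finite_toSet _)
  rw [Set.ncard_coe_finset, Finset.card_product] at h1
  rw [h0]
  have hb : ∀ x y : ℝ, R * (x + y) ≤ |R| * (|x| + |y|) := by
    intro x y
    calc R * (x + y) ≤ |R * (x + y)| := le_abs_self _
      _ = |R| * |x + y| := abs_mul _ _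
      _ ≤ _ := mul_le_mul_of_nonneg_left (abs_add_le x y) (abs_nonneg R)
  have h2 := card60 (c.1 + R * H 0) (c.1 - R * H π) (z := |R| * (|H 0| + |H π|)) (by
    have := hb (H 0) (H π)
    linarith) (by positivity)
  have h3 := card60 (c.2 + R * H (π / 2)) (c.2 - R * H (-(π / 2))) (z := |R| * (|H (π / 2)| + |H (-(π / 2))|)) (by
    have := hb (H (π / 2)) (H (-(π / 2)))
    linarith) (by positivity)
  calc ((_ : ℕ) : ℝ) ≤ (((Finset.Icc ⌊c.1 - R * H π⌋ ⌈c.1 + R * H 0⌉).card * (Finset.Icc ⌊c.2 - R * H (-(π / 2))⌋ ⌈c.2 + R * H (π / 2)⌉).card : ℕ) : ℝ) := by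
        exact_mod_cast h1
    _ = ((Finset.Icc ⌊c.1 - R * H π⌋ ⌈c.1 + R * H 0⌉).card : ℝ) * ((Finset.Icc ⌊c.2 - R * H (-(π / 2))⌋ ⌈c.2 + R * H (π / 2)⌉).card : ℝ) := by
        push_cast
        ring
    _ ≤ _ := mul_le_mul h2 h3 (Nat.cast_nonneg _) (by positivity)

theorem abs_le (H : ℝ → ℝ) (c : ℝ × ℝ) (R : ℝ) : |cntc H c R - area H * R ^ 2| ≤ BB H R + area H * R ^ 2 := by
  have hA : 0 ≤ area H := ENNReal.toReal_nonneg
  have h1 := cntc_nonneg H c R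
  have h2 := cntc_le H c R
  have h3 : 0 ≤ area H * R ^ 2 := by positivity
  rw [_root_.abs_le]
  constructor <;> linarith

theorem bdd (H : ℝ → ℝ) (R : ℝ) : BddAbove (range fun c : ℝ × ℝ => |cntc H c R - area H * R ^ 2|) :=
  ⟨BB H R + area H * R ^ 2, by
    rintro _ ⟨c, rfl⟩
    exact abs_le H c R⟩

theorem supE_nonneg (H : ℝ → ℝ) (R : ℝ) : 0 ≤ SupE H R := Real.iSup_nonneg fun _ => abs_nonneg _

theorem le_supE (H : ℝ → ℝ) (R : ℝ) (c : ℝ × ℝ) : |cntc H c R - area H * R ^ 2| ≤ SupE H R := le_ciSup (bdd H R) c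

theorem BB_mono {H : ℝ → ℝ} {R Y : ℝ} (h0 : 0 ≤ R) (h : R ≤ Y) : BB H R ≤ BB H Y := by
  have hY : 0 ≤ Y := h0.trans h
  unfold BB
  rw [abs_of_nonneg h0, abs_of_nonneg hY]
  gcongr

theorem supE_le (H : ℝ → ℝ) (R : ℝ) : SupE H R ≤ BB H R + area H * R ^ 2 := ciSup_le fun c => abs_le H c R

/-- the power commutes with the supremum -/
theorem sup_pow {ι : Type} [Nonempty ι] {f : ι → ℝ} (h0 : ∀ i, 0 ≤ f i) (hb : BddAbove (range f)) {p : ℝ} (hp : 0 < p) :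
    ⨆ i, ENNReal.ofReal (f i ^ p) = ENNReal.ofReal ((⨆ i, f i) ^ p) := by
  have hS : 0 ≤ ⨆ i, f i := Real.iSup_nonneg h0
  have h1 : ⨆ i, ENNReal.ofReal (f i ^ p) ≤ ENNReal.ofReal ((⨆ i, f i) ^ p) :=
    iSup_le fun i => ENNReal.ofReal_le_ofReal (Real.rpow_le_rpow (h0 i) (le_ciSup hb i) hp.le)
  refine le_antisymm h1 ?_
  obtain ⟨a, ha⟩ : ∃ a : ℝ, a = (⨆ i, ENNReal.ofReal (f i ^ p)).toReal := ⟨_, rfl⟩
  have hne : ⨆ i, ENNReal.ofReal (f i ^ p) ≠ ⊤ := ne_top_of_le_ne_top ENNReal.ofReal_ne_top h1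
  have ha0 : 0 ≤ a := by
    rw [ha]
    exact ENNReal.toReal_nonneg
  have h2 : ⨆ i, ENNReal.ofReal (f i ^ p) = ENNReal.ofReal a := by rw [ha, ENNReal.ofReal_toReal hne]
  rw [h2]
  apply ENNReal.ofReal_le_ofReal
  have h3 : ∀ i, f i ^ p ≤ a := by
    intro i
    have h4 : ENNReal.ofReal (f i ^ p) ≤ ENNReal.ofReal a := by
      rw [← h2]
      exact le_iSup (fun i => ENNReal.ofReal (f i ^ p)) i
    exact (ENNReal.ofReal_le_ofReal_iff ha0).1 h4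
  have h4 : ⨆ i, f i ≤ a ^ (1 / p) := by
    apply ciSup_le
    intro i
    have h5 := Real.rpow_le_rpow (Real.rpow_nonneg (h0 i) p) (h3 i) (by positivity : 0 ≤ 1 / p)
    rwa [← Real.rpow_mul (h0 i), mul_one_div_cancel hp.ne', Real.rpow_one] at h5
  calc (⨆ i, f i) ^ p ≤ (a ^ (1 / p)) ^ p := Real.rpow_le_rpow hS h4 hp.le
    _ = a := by rw [← Real.rpow_mul ha0, one_div_mul_cancel hp.ne', Real.rpow_one]

theorem sup_eq (H : ℝ → ℝ) {p : ℝ} (hp : 0 < p) (R : ℝ) :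
    ⨆ c : ℝ × ℝ, ENNReal.ofReal (|cntc H c R - area H * R ^ 2| ^ p) = ENNReal.ofReal (SupE H R ^ p) :=
  sup_pow (fun _ => abs_nonneg _) (bdd H R) hp

theorem supE_meas {H : ℝ → ℝ} (hH : ContDiff ℝ 2 H) (hp : Function.Periodic H (2 * π)) (hr : ∀ θ, 0 < H θ + deriv (deriv H) θ) :
    Measurable (SupE H) := by
  have h1 := (Pool.Agent.Helper60.AD.worst_measurable' hH hp hr one_pos).ennreal_toReal
  have e : (fun R : ℝ => (⨆ c : ℝ × ℝ, ENNReal.ofReal (|cntc H c R - area H * R ^ 2| ^ (1 : ℝ))).toReal) = SupE H := by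
    funext R
    rw [sup_eq H one_pos, Real.rpow_one, ENNReal.toReal_ofReal (supE_nonneg H R)]
  rwa [e] at h1

/-- D1a: the largest error is finite, locally bounded and measurable -/
theorem supE_facts {H : ℝ → ℝ} (hH : ContDiff ℝ 2 H) (hp : Function.Periodic H (2 * π)) (hr : ∀ θ, 0 < H θ + deriv (deriv H) θ) :
    (∀ R : ℝ, BddAbove (range fun c : ℝ × ℝ => |cntc H c R - area H * R ^ 2|)) ∧ (∀ Y : ℝ, ∃ C : ℝ, ∀ R ∈ Icc 1 Y, 0 ≤ SupE H R ∧ SupE H R ≤ C) ∧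
    Measurable (SupE H) ∧
    ∀ p : ℝ, 0 < p → ∀ R : ℝ, ⨆ c : ℝ × ℝ, ENNReal.ofReal (|cntc H c R - area H * R ^ 2| ^ p) = ENNReal.ofReal (SupE H R ^ p) := by
  have hA : 0 ≤ area H := ENNReal.toReal_nonneg
  refine ⟨bdd H, fun Y => ⟨BB H Y + area H * Y ^ 2, fun R hR => ⟨supE_nonneg H R, (supE_le H R).trans ?_⟩⟩, supE_meas hH hp hr,
    fun p hp0 R => sup_eq H hp0 R⟩
  have h1 : (0:ℝ) ≤ R := by linarith [hR.1]
  have h2 : R ^ 2 ≤ Y ^ 2 := pow_le_pow_left₀ h1 hR.2 2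
  have h3 := BB_mono (H := H) h1 hR.2
  have h4 := mul_le_mul_of_nonneg_left h2 hA
  linarith

end Pool.Agent.Helper60.WC
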